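import Pool.Agent.helper19.MX.SpecC
import Pool.Agent.helper13.AU.QL0

/-!
# Row CN1 (MP_a875de_ag): the fibres of `s`
-/

set_option linter.unusedVariables false

namespace MX

open Pool.Agent.helper53.AU AN
open scoped Classical Topology IntermediateField
open IntermediateField (fixedField)

noncomputable section

/-- the automorphisms over `k(s)` -/
def CN1_H (k : Type) {F : Type} [Field k] [Field F] [Algebra k F] (s : F) : Subgroup (F ≃ₐ[k] F) where
  carrier := {τ | τ s = s}
  one_mem' := rfl
  mul_mem' := by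
    intro a b ha hb
    show a (b s) = s
    rw [show b s = s from hb, show a s = s from ha]
  inv_mem' := by
    intro a ha
    show a.symm s = s
    rw [AlgEquiv.symm_apply_eq]
    exact (show a s = s from ha).symm

theorem CN1_mem {k F : Type} [Field k] [Field F] [Algebra k F] {s : F} {τ : F ≃ₐ[k] F} :
    τ ∈ CN1_H k s ↔ τ s = s := Iff.rfl

/-- an automorphism fixing `s` fixes `k(s)` -/
theorem CN1_fix {k F : Type} [Field k] [Field F] [Algebra k F] {s : F} {τ : F ≃ₐ[k] F}
    (h : τ s = s) {x : F} (hx : x ∈ k⟮s⟯) : τ x = x := by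
  have h1 : k⟮s⟯ ≤ fixedField (Subgroup.zpowers τ) := by
    rw [IntermediateField.adjoin_le_iff]
    rintro y rfl
    rintro ⟨σ, hσ⟩
    have h2 : Subgroup.zpowers τ ≤ CN1_H k y := by
      rw [Subgroup.zpowers_le]
      exact h
    exact h2 hσ
  exact h1 hx ⟨τ, Subgroup.mem_zpowers τ⟩

theorem CN1_finite {k F : Type} [Field k] [Field F] [Algebra k F] {s : F}
    (hfd : FiniteDimensional k⟮s⟯ F) : {τ : F ≃ₐ[k] F | τ s = s}.Finite := by
  have hinj : Function.Injective (fun τ : CN1_H k s =>
      (AlgEquiv.ofRingEquiv (f := ((τ : F ≃ₐ[k] F) : F ≃+* F))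
        (fun x => CN1_fix (CN1_mem.1 τ.2) x.2) : F ≃ₐ[k⟮s⟯] F)) := by
    intro a b hab
    apply Subtype.ext
    ext x
    have := congrArg (fun σ : F ≃ₐ[k⟮s⟯] F => σ x) hab
    exact this
  have : Finite (CN1_H k s) := Finite.of_injective _ hinj
  exact Set.toFinite (CN1_H k s : Set (F ≃ₐ[k] F))

/-- the fixed field is `k(s)` -/
theorem CN1_field {k F : Type} [Field k] [Field F] [Algebra k F] {s : F}
    (hfd : FiniteDimensional k⟮s⟯ F) (hG : IsGalois k⟮s⟯ F) :
    fixedField (CN1_H k s) = k⟮s⟯ := by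
  apply le_antisymm
  · intro x hx
    have h1 : ∀ σ : F ≃ₐ[k⟮s⟯] F, σ x = x := by
      intro σ
      have h2 : (σ.restrictScalars k) ∈ CN1_H k s := by
        show σ s = s
        exact σ.commutes ⟨s, IntermediateField.mem_adjoin_simple_self k s⟩
      exact hx ⟨σ.restrictScalars k, h2⟩
    have h3 := (IsGalois.mem_range_algebraMap_iff_fixed (F := k⟮s⟯) x).2 h1
    obtain ⟨y, rfl⟩ := h3
    exact y.2
  · intro x hx
    rintro ⟨τ, hτ⟩
    exact CN1_fix (CN1_mem.1 hτ) hx

theorem CN1_adj {k F : Type} [Field k] [Field F] [Algebra k F] (s : F) (c : k) :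
    k⟮s - algebraMap k F c⟯ = k⟮s⟯ := by
  apply le_antisymm
  · rw [IntermediateField.adjoin_simple_le_iff]
    exact sub_mem (IntermediateField.mem_adjoin_simple_self k s) (k⟮s⟯.algebraMap_mem c)
  · rw [IntermediateField.adjoin_simple_le_iff]
    have h1 := add_mem (IntermediateField.mem_adjoin_simple_self k (s - algebraMap k F c))
      ((k⟮s - algebraMap k F c⟯).algebraMap_mem c)
    rwa [sub_add_cancel] at h1

theorem CN1_trans {k F : Type} [Field k] [Field F] [Algebra k F] {s : F}
    (hs : Transcendental k s) (c : k) : Transcendental k (s - algebraMap k F c) := by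
  intro h
  apply hs
  have h1 := h.add (isAlgebraic_algebraMap c)
  rwa [sub_add_cancel] at h1

/-- a function with one zero of degree 1 -/
theorem CN1_unique (hQZ3 : QZ3_stmt) (hQV4 : QV4_stmt) {k F : Type} [Field k] [IsAlgClosed k]
    [Field F] [Algebra k F] (hF : IsFF k F) {z : F} (hz : Transcendental k z)
    (hd : degx k z = 1) {Q Q' : Place k F} (hQ : 0 < Q.ord z) (hQ' : 0 < Q'.ord z) : Q = Q' := by
  by_contra hne
  have hz0 : z ≠ 0 := by
    rintro rfl
    exact hz isAlgebraic_zero
  have h1 := (hQZ3 k F hF z hz).1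
  have hfin := hQV4 k F hF z hz0
  rw [hd] at h1
  have hsub : Function.support (fun P : Place k F => max (P.ord z) 0) ⊆ (hfin.toFinset : Set (Place k F)) := by
    intro P hP
    rw [Set.Finite.coe_toFinset]
    intro h0
    apply hP
    show max (P.ord z) 0 = 0
    rw [show P.ord z = 0 from h0]
    rfl
  rw [finsum_eq_sum_of_support_subset _ hsub] at h1
  have hmem : ∀ P : Place k F, 0 < P.ord z → P ∈ hfin.toFinset := by
    intro P hP
    rw [Set.Finite.mem_toFinset]
    exact hP.ne'
  have h2 : ({Q, Q'} : Finset (Place k F)) ⊆ hfin.toFinset := by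
    intro P hP
    rw [Finset.mem_insert, Finset.mem_singleton] at hP
    rcases hP with rfl | rfl
    · exact hmem _ hQ
    · exact hmem _ hQ'
  have h3 := Finset.sum_le_sum_of_subset_of_nonneg (f := fun P : Place k F => max (P.ord z) 0) h2
    (fun P _ _ => le_max_right _ _)
  rw [Finset.sum_pair hne] at h3
  have h4 : Q.ord z ≤ max (Q.ord z) 0 := le_max_left _ _
  have h5 : Q'.ord z ≤ max (Q'.ord z) 0 := le_max_left _ _
  have h6 : ∑ P ∈ hfin.toFinset, max (P.ord z) 0 = ((1 : ℕ) : ℤ) := h1
  rw [h6] at h3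
  push_cast at h3
  omega

theorem CN1 (hQZ3 : QZ3_stmt) (hQV4 : QV4_stmt) (hQE1 : QE1_stmt) (hQE2 : QE2_stmt)
    (hQE4 : QE4_stmt) : CN1_stmt := by
  intro k F _ _ _ _ hF s hs hG
  have hfd := QL0 k F hF s hs
  have hfin := CN1_finite hfd
  refine ⟨hfin, fun c => ⟨?_, ?_⟩⟩
  · -- existence
    have hz := CN1_trans hs c
    have h1 := (hQZ3 k F hF _ hz).1
    by_contra hcon
    push Not at hcon
    have h2 : ∀ P : Place k F, max (P.ord (s - algebraMap k F c)) 0 = 0 := by
      intro P
      by_contra h3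
      apply hcon P
      right
      by_contra h4
      apply h3
      exact max_eq_right (by omega)
    simp only [h2, finsum_zero] at h1
    have hfd' := QL0 k F hF _ hz
    have h3 : 0 < degx k (s - algebraMap k F c) := Module.finrank_pos
    omega
  · intro P P' hP hP'
    have hfH : Finite (CN1_H k s) := hfin.to_subtype
    obtain ⟨hFE, _, _⟩ := hQE1 k F hF (CN1_H k s) hfH
    obtain ⟨⟨Q, e, hQ⟩, _⟩ := hQE2 k F hF (CN1_H k s) hfH P
    obtain ⟨⟨Q', e', hQ'⟩, _⟩ := hQE2 k F hF (CN1_H k s) hfH P'
    have hEs := CN1_field hfd hG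
    have hsE : s ∈ fixedField (CN1_H k s) := by
      rw [hEs]; exact IntermediateField.mem_adjoin_simple_self k s
    -- the function in the fixed field
    set z : fixedField (CN1_H k s) := ⟨s, hsE⟩ - algebraMap k _ c with hzdef
    have hzv : (z : F) = s - algebraMap k F c := rfl
    have hzt : Transcendental k z := by
      intro h
      apply CN1_trans hs c
      rw [← hzv]
      exact h.algebraMap
    have hz0 : (z : F) ≠ 0 := by
      intro h
      apply hzt
      rw [show z = 0 from Subtype.ext h]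
      exact isAlgebraic_zero
    have htop : k⟮z⟯ = ⊤ := by
      rw [eq_top_iff]
      intro f _
      have h1 : (f : F) ∈ k⟮s - algebraMap k F c⟯ := by
        rw [CN1_adj, ← hEs]; exact f.2
      have h2 : (k⟮z⟯).map (fixedField (CN1_H k s)).val = k⟮s - algebraMap k F c⟯ := by
        rw [IntermediateField.adjoin_map, Set.image_singleton]
        rfl
      rw [← h2] at h1
      obtain ⟨g, hg, hgf⟩ := h1
      have h3 : g = f := Subtype.ext hgf
      rw [← h3]; exact hg
    have hdeg : degx k z = 1 := by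
      unfold degx
      rw [htop]
      exact IntermediateField.finrank_top
    have hpos : ∀ (R : Place k F) (T : Place k (fixedField (CN1_H k s))) (n : ℕ),
        Below (fixedField (CN1_H k s)) R T n → R.Ge 1 (s - algebraMap k F c) → 0 < T.ord z := by
      intro R T n hT hR
      have h1 := hT.2 z
      have h2 := hR.le (by rw [← hzv]; exact hz0)
      rw [← hzv, h1] at h2
      have h3 : (0 : ℤ) < n := by exact_mod_cast hT.1
      by_contra h4
      push Not at h4
      nlinarith
    have hQQ : Q = Q' := CN1_unique hQZ3 hQV4 hFE hzt hdeg (hpos P Q e hQ hP)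
      (hpos P' Q' e' hQ' hP')
    subst hQQ
    obtain ⟨τ, hτ, hPP⟩ := (hQE4 k F hF (CN1_H k s) hfH P P' Q e hQ).1.1 ⟨e', hQ'⟩
    exact ⟨τ, CN1_mem.1 hτ, hPP⟩

end

end MX
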